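import Pool.Agent.Helper74.LL.GoalsG

/-!
# Project LL, packet LL-KD1 (helper93)
-/

set_option autoImplicit false

open Pool.Agent.Helper15.RA Pool.Agent.Helper45.AM

noncomputable section

namespace Pool.Agent.Helper93.LL.KD1

open Pool.Agent.Helper15.AM Pool.Agent.Helper74.LL

section

variable {S W : Type} [Group W] {M : CoxeterMatrix S} (cs : CoxeterSystem M W)

theorem al_add (k l : ℕ) : ∀ i j : S, al cs i j (k + l) =
    al cs i j k * (if Even k then al cs i j l else al cs j i l) := by
  induction k with
  | zero =>
    intro i j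
    rw [Nat.zero_add, if_pos Even.zero]
    simp [al]
  | succ k ih =>
    intro i j
    have h1 : al cs i j (k + 1 + l) = cs.simple i * al cs j i (k + l) := by
      rw [show k + 1 + l = (k + l) + 1 by omega]
      rfl
    have h2 : al cs i j (k + 1) = cs.simple i * al cs j i k := rfl
    rw [h1, h2, ih j i, mul_assoc]
    congr 2
    by_cases h : Even k
    · have : ¬ Even (k + 1) := by rw [Nat.even_add_one]; exact not_not.2 h
      rw [if_pos h, if_neg this]
    · have : Even (k + 1) := by rw [Nat.even_add_one]; exact h
      rw [if_neg h, if_pos this]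

theorem al_par (k : ℕ) : ∀ i j : S, al cs i j k ∈ par cs {i, j} := by
  induction k with
  | zero => intro i j; exact (par cs {i, j}).one_mem
  | succ k ih =>
    intro i j
    have h := ih j i
    rw [Set.pair_comm] at h
    exact (par cs {i, j}).mul_mem (Subgroup.subset_closure ⟨i, by simp, rfl⟩) h

theorem iota_al (e : Bool → S) (he : Function.Injective e) (k : ℕ) : ∀ a b : Bool,
    iotaE cs e he (al (subE M e he).toCoxeterSystem a b k) = al cs (e a) (e b) k := by
  induction k with
  | zero => intro a b; exact map_one _
  | succ k ih =>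
    intro a b
    have h1 : al (subE M e he).toCoxeterSystem a b (k + 1) =
      (subE M e he).toCoxeterSystem.simple a * al (subE M e he).toCoxeterSystem b a k := rfl
    have h2 : al cs (e a) (e b) (k + 1) = cs.simple (e a) * al cs (e b) (e a) k := rfl
    rw [h1, h2, map_mul, ih b a]
    congr 1
    unfold iotaE
    exact (subE M e he).toCoxeterSystem.lift_apply_simple _ a

/-- the facts on the alternating words -/
theorem base (i j : S) (hij : i ≠ j) (hm : M i j ≠ 0) :
    (∀ k ≤ M i j, cs.length (al cs i j k) = k) ∧ al cs i j (M i j) = al cs j i (M i j) ∧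
    (∀ w ∈ par cs {i, j}, ∃ k ≤ M i j, w = al cs i j k ∨ w = al cs j i k) ∧
    (∀ k ≤ M i j, ∀ k' ≤ M i j, al cs i j k = al cs j i k' → k = k' ∧ (k = 0 ∨ k = M i j)) ∧
    (∀ k, Even k → (al cs i j k)⁻¹ = al cs j i k) ∧ (∀ k, Odd k → (al cs i j k)⁻¹ = al cs i j k) := by
  let e : Bool → S := fun b => if b then i else j
  have he : Function.Injective e := by
    intro a b hab
    cases a <;> cases b
    · rfl
    · exact absurd hab.symm hij
    · exact absurd hab hij
    · rfl
  have hM : (subE M e he) true false = M i j := rfl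
  have hr : Set.range e = {i, j} := by
    ext x
    constructor
    · rintro ⟨a, rfl⟩
      cases a
      · exact Or.inr rfl
      · exact Or.inl rfl
    · rintro (rfl | rfl)
      · exact ⟨true, rfl⟩
      · exact ⟨false, rfl⟩
  obtain ⟨p1, p2, p3, -⟩ := k_gps S W M cs Bool e he
  obtain ⟨r1, r2, r3, r4, r5, r6, -⟩ := g_rw Bool (subE M e he).Group (subE M e he)
    (subE M e he).toCoxeterSystem true false (by decide) (by intro k; cases k <;> simp) (by rw [hM]; exact hm)
  rw [hM] at r1 r2 r3 r4
  have ia := fun k => iota_al cs e he k true false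
  have ib := fun k => iota_al cs e he k false true
  have et : e true = i := rfl
  have ef : e false = j := rfl
  rw [hr] at p3
  refine ⟨?_, ?_, ?_, ?_, ?_, ?_⟩
  · intro k hk
    have h := p1 (al (subE M e he).toCoxeterSystem true false k)
    rw [ia, r1 k hk] at h
    exact h
  · have h := congrArg (iotaE cs e he) r2
    rw [ia, ib] at h
    exact h
  · intro w hw
    rw [← p3] at hw
    obtain ⟨g, rfl⟩ := hw
    obtain ⟨k, hk, rfl | rfl⟩ := r3 g
    · exact ⟨k, hk, Or.inl (ia k)⟩
    · exact ⟨k, hk, Or.inr (ib k)⟩
  · intro k hk k' hk' h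
    refine r4 k hk k' hk' (p2 ?_)
    rw [ia, ib]
    exact h
  · intro k hk
    have h := congrArg (iotaE cs e he) (r5 k hk)
    rw [map_inv, ia, ib] at h
    exact h
  · intro k hk
    have h := congrArg (iotaE cs e he) (r6 k hk)
    rw [map_inv, ia] at h
    exact h

theorem par_single (i : S) (w : W) : w ∈ par cs {i} ↔ w = 1 ∨ w = cs.simple i := by
  constructor
  · intro h
    unfold par at h
    induction h using Subgroup.closure_induction with
    | mem x hx =>
      obtain ⟨a, ha, rfl⟩ := hx
      right
      rw [Set.mem_singleton_iff.1 ha]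
    | one => exact Or.inl rfl
    | mul x y _ _ hx hy =>
      rcases hx with rfl | rfl <;> rcases hy with rfl | rfl
      · exact Or.inl (one_mul 1)
      · exact Or.inr (one_mul _)
      · exact Or.inr (mul_one _)
      · exact Or.inl (cs.simple_mul_simple_self i)
    | inv x _ hx =>
      rcases hx with rfl | rfl
      · exact Or.inl inv_one
      · exact Or.inr (cs.inv_simple i)
  · rintro (rfl | rfl)
    · exact (par cs {i}).one_mem
    · exact Subgroup.subset_closure ⟨i, rfl, rfl⟩

end

theorem t : KD1 := by
  intro S W _ M cs i j hij hm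
  have hm' : M j i ≠ 0 := by rw [M.symmetric]; exact hm
  obtain ⟨b1, b2, b3, b4, b5, b6⟩ := base cs i j hij hm
  obtain ⟨c1, -, -, -, c5, c6⟩ := base cs j i hij.symm hm'
  rw [M.symmetric j i] at c1
  have hne : M i j ≠ 1 := M.off_diagonal i j hij
  have hm2 : 2 ≤ M i j := by omega
  have hsw : w0 cs i j = w0 cs j i := by
    unfold w0
    rw [M.symmetric j i]
    exact b2
  have hinv : (w0 cs i j)⁻¹ = w0 cs i j := by
    unfold w0
    rcases Nat.even_or_odd (M i j) with h | h
    · rw [b5 _ h, b2]
    · exact b6 _ h
  have hpar : w0 cs i j ∈ par cs {i, j} := al_par cs _ i j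
  have hlen : cs.length (w0 cs i j) = M i j := b1 _ le_rfl
  have hsq : w0 cs i j * w0 cs i j = 1 := by
    nth_rewrite 1 [← hinv]
    exact inv_mul_cancel _
  -- prefixes of the longest element
  have key : ∀ z ∈ par cs {i, j}, ∃ u, w0 cs i j = z * u ∧ cs.length u + cs.length z = M i j := by
    intro z hz
    obtain ⟨k, hk, h⟩ := b3 z hz
    rcases h with rfl | rfl
    · refine ⟨if Even k then al cs i j (M i j - k) else al cs j i (M i j - k), ?_, ?_⟩
      · rw [← al_add cs k (M i j - k) i j, show k + (M i j - k) = M i j by omega]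
        rfl
      · rw [b1 k hk]
        split_ifs
        · rw [b1 _ (Nat.sub_le _ _)]; omega
        · rw [c1 _ (Nat.sub_le _ _)]; omega
    · refine ⟨if Even k then al cs j i (M i j - k) else al cs i j (M i j - k), ?_, ?_⟩
      · rw [← al_add cs k (M i j - k) j i, show k + (M i j - k) = M i j by omega]
        exact b2
      · rw [c1 k hk]
        split_ifs
        · rw [c1 _ (Nat.sub_le _ _)]; omega
        · rw [b1 _ (Nat.sub_le _ _)]; omega
  have q0 : ∀ z ∈ par cs {i, j}, cs.length (z * w0 cs i j) + cs.length z = M i j := by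
    intro z hz
    obtain ⟨u, h1, h2⟩ := key z⁻¹ ((par cs {i, j}).inv_mem hz)
    rw [h1, mul_inv_cancel_left]
    rwa [cs.length_inv] at h2
  have q1 : ∀ z ∈ par cs {i, j}, cs.length (w0 cs i j * z) + cs.length z = M i j := by
    intro z hz
    have h := q0 z⁻¹ ((par cs {i, j}).inv_mem hz)
    rw [cs.length_inv] at h
    rw [← cs.length_inv (w0 cs i j * z), mul_inv_rev, hinv]
    exact h
  have q2 : ∀ z ∈ par cs {i, j}, z ≠ w0 cs i j → cs.length z < M i j := by
    intro z hz hne
    have h := q0 z hz
    rcases Nat.eq_zero_or_pos (cs.length (z * w0 cs i j)) with h0 | h0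
    · exfalso
      apply hne
      have h1 := (cs.length_eq_zero_iff).1 h0
      have h2 := mul_eq_one_iff_eq_inv.1 h1
      rw [hinv] at h2
      exact h2
    · omega
  have si : cs.simple i ∈ par cs {i, j} := Subgroup.subset_closure ⟨i, Or.inl rfl, rfl⟩
  have sj : cs.simple j ∈ par cs {i, j} := Subgroup.subset_closure ⟨j, Or.inr rfl, rfl⟩
  obtain ⟨-, d1, d2⟩ := k_gd S W M cs i j hij
  have ldes : ∀ z ∈ par cs {i, j}, z ≠ 1 → (cs.IsLeftDescent z i ∨ cs.IsLeftDescent z j) := by
    intro z hz hz1
    obtain ⟨k, hk, h⟩ := b3 z hz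
    rcases Nat.eq_zero_or_pos k with rfl | hk0
    · exfalso
      rcases h with h | h <;> exact hz1 h
    · obtain ⟨k, rfl⟩ : ∃ l, k = l + 1 := ⟨k - 1, by omega⟩
      rcases h with h | h
      · left
        rw [cs.isLeftDescent_iff, h]
        have h1 : cs.simple i * al cs i j (k + 1) = al cs j i k := by
          rw [show al cs i j (k + 1) = cs.simple i * al cs j i k from rfl, ← mul_assoc,
            cs.simple_mul_simple_self, one_mul]
        rw [h1, c1 k (by omega), b1 _ hk]
      · right
        rw [cs.isLeftDescent_iff, h]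
        have h1 : cs.simple j * al cs j i (k + 1) = al cs i j k := by
          rw [show al cs j i (k + 1) = cs.simple j * al cs i j k from rfl, ← mul_assoc,
            cs.simple_mul_simple_self, one_mul]
        rw [h1, b1 k (by omega), c1 _ hk]
  refine ⟨⟨hpar, hsw, hinv, hlen, hsq⟩, ?_, ?_, ?_, ?_, ?_, ?_, ?_, ?_, ?_, ?_⟩
  · intro z hz
    have h := q0 z hz
    exact ⟨by omega, q2 z hz, q1 z hz, h⟩
  · intro z hz
    refine ⟨?_, ?_⟩
    · intro hne
      have h0 := q2 z hz hne
      refine ⟨?_, ?_⟩
      · rintro ⟨h1, h2⟩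
        obtain ⟨-, u, -, h3⟩ := d1 z h1 h2
        omega
      · rintro ⟨h1, h2⟩
        obtain ⟨-, u, -, h3⟩ := d2 z h1 h2
        omega
    · intro hne
      refine ⟨?_, ldes z hz hne⟩
      have h := ldes z⁻¹ ((par cs {i, j}).inv_mem hz) (by simpa using hne)
      rwa [cs.isLeftDescent_inv_iff, cs.isLeftDescent_inv_iff] at h
  · have e1 := q1 _ si
    have e2 := q1 _ sj
    have e3 := q0 _ si
    have e4 := q0 _ sj
    rw [cs.length_simple] at e1 e2 e3 e4
    rw [cs.isRightDescent_iff, cs.isRightDescent_iff, cs.isLeftDescent_iff, cs.isLeftDescent_iff, hlen]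
    exact ⟨e1, e2, e3, e4⟩
  · intro z
    unfold Full
    rw [par_single, par_single]
    constructor
    · rintro ⟨h1, h2, h3⟩
      refine ⟨h1, ?_⟩
      by_contra hlt
      obtain ⟨k, hk, h⟩ := b3 z h1
      have hk' : cs.length z = k := by
        rcases h with rfl | rfl
        · exact b1 k hk
        · exact c1 k hk
      have : k = 0 ∨ k = 1 := by omega
      rcases this with rfl | rfl
      · apply h2
        left
        rcases h with h | h <;> exact h
      · rcases h with h | h
        · apply h2
          right
          rw [h]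
          exact mul_one _
        · apply h3
          right
          rw [h]
          exact mul_one _
    · rintro ⟨h1, h2⟩
      refine ⟨h1, ?_, ?_⟩
      · rintro (rfl | rfl)
        · rw [cs.length_one] at h2; omega
        · rw [cs.length_simple] at h2; omega
      · rintro (rfl | rfl)
        · rw [cs.length_one] at h2; omega
        · rw [cs.length_simple] at h2; omega
  · intro z hz
    obtain ⟨k, hk, h⟩ := b3 z hz
    have hk' : cs.length z = k := by
      rcases h with rfl | rfl
      · exact b1 k hk
      · exact c1 k hk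
    rw [hk']
    have e1 : ∀ a b : S, al cs a b 1 = cs.simple a := fun a b => mul_one _
    have e2 : ∀ a b : S, al cs a b 2 = cs.simple a * cs.simple b := fun a b => by
      change cs.simple a * (cs.simple b * 1) = _
      rw [mul_one]
    have e3 : ∀ a b : S, al cs a b 3 = cs.simple a * cs.simple b * cs.simple a := fun a b => by
      change cs.simple a * (cs.simple b * (cs.simple a * 1)) = _
      rw [mul_one, mul_assoc]
    refine ⟨?_, ?_, ?_⟩
    · rintro rfl
      rwa [e1, e1] at h
    · rintro rfl
      rwa [e2, e2] at h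
    · rintro rfl
      rwa [e3, e3] at h
  · intro h2 hc
    have h := (b4 2 hm2 2 hm2 (by
      change cs.simple i * (cs.simple j * 1) = cs.simple j * (cs.simple i * 1)
      rw [mul_one, mul_one]
      exact hc)).2
    omega
  · intro h2
    have e2 : w0 cs i j = cs.simple i * cs.simple j := by
      unfold w0
      rw [h2]
      change cs.simple i * (cs.simple j * 1) = _
      rw [mul_one]
    have e3 : w0 cs j i = cs.simple j * cs.simple i := by
      unfold w0
      rw [M.symmetric, h2]
      change cs.simple j * (cs.simple i * 1) = _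
      rw [mul_one]
    exact ⟨e2, by rw [← e2, ← e3]; exact hsw⟩
  · have h := b1 2 hm2
    have e2 : al cs i j 2 = cs.simple i * cs.simple j := by
      change cs.simple i * (cs.simple j * 1) = _
      rw [mul_one]
    rwa [e2] at h
  · intro h3
    have h := b1 3 h3
    have e2 : al cs i j 3 = cs.simple i * cs.simple j * cs.simple i := by
      change cs.simple i * (cs.simple j * (cs.simple i * 1)) = _
      rw [mul_one, mul_assoc]
    rwa [e2] at h
  · intro h7 hc
    have h := (b4 3 (by omega) 3 (by omega) (by
      change cs.simple i * (cs.simple j * (cs.simple i * 1)) = cs.simple j * (cs.simple i * (cs.simple j * 1))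
      rw [mul_one, mul_one, ← mul_assoc, ← mul_assoc]
      exact hc)).2
    omega

end Pool.Agent.Helper93.LL.KD1
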